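import Mathlib

namespace Pool.Agent.Results.MP_393150_al.FiniteQuotientCancellative

universe u

/-- o-conjugacy in a semigroup `S`, with the multipliers `g, h` taken in `S` itself. -/
def OConj {S : Type u} [Semigroup S] (a b : S) : Prop :=
  ∃ g h : S, a * g = g * b ∧ b * h = h * a

/-- `pw a n` is `a` to the power `n + 1`. -/
def pw {S : Type u} [Semigroup S] (a : S) : ℕ → S
  | 0 => a
  | (n + 1) => pw a n * a

theorem pw_mul {S : Type u} [Semigroup S] (a : S) (m n : ℕ) :
    pw a m * pw a n = pw a (m + n + 1) := by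
  induction n with
  | zero => rfl
  | succ n ih =>
    show pw a m * (pw a n * a) = pw a (m + n + 1) * a
    rw [← mul_assoc, ih]

theorem pw_periodic {S : Type u} [Semigroup S] (a : S) (i d : ℕ)
    (h : pw a (i + d) = pw a i) (m : ℕ) : pw a (i + m + d) = pw a (i + m) := by
  induction m with
  | zero => exact h
  | succ m ih =>
    have : i + (m + 1) + d = (i + m + d) + 1 := by ring
    rw [this]
    show pw a (i + m + d) * a = pw a (i + m) * a
    rw [ih]

theorem pw_periodic' {S : Type u} [Semigroup S] (a : S) (i d : ℕ)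
    (h : pw a (i + d) = pw a i) (k m : ℕ) : pw a (i + m + k * d) = pw a (i + m) := by
  induction k with
  | zero => simp
  | succ k ih =>
    have : i + m + (k + 1) * d = i + (m + k * d) + d := by ring
    rw [this, pw_periodic a i d h, ← add_assoc, ih]

/-- Every element `a` of a finite semigroup has an idempotent power `e`, which can be written
`e = b a = a b`. -/
theorem exists_idem {S : Type u} [Semigroup S] [Finite S] (a : S) :
    ∃ e b : S, e * e = e ∧ e = b * a ∧ e = a * b ∧ e * a = a * e := by
  obtain ⟨i, j, hij, h⟩ := Finite.exists_ne_map_eq_of_infinite (pw a)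
  wlog hlt : i < j generalizing i j
  · exact this j i hij.symm h.symm (lt_of_le_of_ne (not_lt.mp hlt) hij.symm)
  obtain ⟨d, rfl⟩ := Nat.exists_eq_add_of_lt hlt
  set D := d + 1 with hD
  have hper : pw a (i + D) = pw a i := h.symm
  -- n + 1 = D * (i + 1)
  obtain ⟨n, hn⟩ : ∃ n, n + 1 = (i + 1) * D := ⟨(i + 1) * D - 1, by
    have : 0 < (i + 1) * D := by positivity
    omega⟩
  have hni : i ≤ n := by nlinarith
  obtain ⟨m, rfl⟩ := Nat.exists_eq_add_of_le hni
  have hidem : pw a (i + m) * pw a (i + m) = pw a (i + m) := by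
    rw [pw_mul, add_assoc (i + m) (i + m) 1, hn, pw_periodic' a i D hper]
  refine ⟨pw a (i + m), pw a ((i + m) + (i + m)), hidem, ?_, ?_, ?_⟩
  · conv_lhs => rw [← hidem, pw_mul]
    rfl
  · conv_lhs => rw [← hidem, pw_mul]
    have h1 : pw a 0 * pw a (i + m + (i + m)) = _ := pw_mul a 0 (i + m + (i + m))
    rw [zero_add] at h1
    exact h1.symm
  · have h1 : pw a 0 * pw a (i + m) = _ := pw_mul a 0 (i + m)
    have h2 : pw a (i + m) * pw a 0 = _ := pw_mul a (i + m) 0
    rw [zero_add] at h1
    rw [add_zero] at h2
    exact h2.trans h1.symm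

theorem result {S : Type u} [Semigroup S] [Finite S] (c : Con S)
    (hc : ∀ a b : S, c a b ↔ OConj a b) : IsCancelMul c.Quotient := by
  -- all idempotents are o-conjugate
  have hid : ∀ e f : S, e * e = e → f * f = f → c e f := by
    intro e f he hf
    rw [hc]
    refine ⟨e * f, f * e, ?_, ?_⟩
    · rw [← mul_assoc, he, mul_assoc, hf]
    · rw [← mul_assoc, hf, mul_assoc, he]
  -- the class of an idempotent is a left and right identity
  have hl : ∀ e y : S, e * e = e → c (e * y) y := by
    intro e y he
    obtain ⟨f, b, hf, -, -, hcom⟩ := exists_idem y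
    have h1 : c (e * y) (f * y) := c.mul (hid e f he hf) (c.refl y)
    have h2 : c (f * y) y := by
      rw [hc]
      refine ⟨f, f, ?_, ?_⟩
      · rw [mul_assoc, ← hcom, ← mul_assoc, hf]
      · rw [← mul_assoc, hf, hcom]
    exact c.trans h1 h2
  have hr : ∀ e y : S, e * e = e → c (y * e) y := by
    intro e y he
    obtain ⟨f, b, hf, -, -, hcom⟩ := exists_idem y
    have h1 : c (y * e) (y * f) := c.mul (c.refl y) (hid e f he hf)
    have h2 : c (y * f) y := by
      rw [hc]
      refine ⟨f, f, ?_, ?_⟩
      · rw [mul_assoc, hf, hcom]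
      · rw [← mul_assoc, ← hcom, mul_assoc, ← hcom, ← mul_assoc, hf]
    exact c.trans h1 h2
  refine { mul_left_cancel := ?_, mul_right_cancel := ?_ }
  · intro x y z
    refine Con.induction_on x (fun x => ?_)
    refine Con.induction_on y (fun y => ?_)
    refine Con.induction_on z (fun z => ?_)
    intro h
    have h : c (x * y) (x * z) := (Con.eq c).mp h
    refine (Con.eq c).mpr ?_
    obtain ⟨e, b, he, hb, -, -⟩ := exists_idem x
    have h1 : c (b * (x * y)) (b * (x * z)) := c.mul (c.refl b) h
    rw [← mul_assoc, ← mul_assoc, ← hb] at h1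
    exact c.trans (c.symm (hl e y he)) (c.trans h1 (hl e z he))
  · intro x y z
    refine Con.induction_on x (fun x => ?_)
    refine Con.induction_on y (fun y => ?_)
    refine Con.induction_on z (fun z => ?_)
    intro h
    have h : c (y * x) (z * x) := (Con.eq c).mp h
    refine (Con.eq c).mpr ?_
    obtain ⟨e, b, he, -, hb, -⟩ := exists_idem x
    have h1 : c ((y * x) * b) ((z * x) * b) := c.mul h (c.refl b)
    rw [mul_assoc, mul_assoc, ← hb] at h1
    exact c.trans (c.symm (hr e y he)) (c.trans h1 (hr e z he))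

end Pool.Agent.Results.MP_393150_al.FiniteQuotientCancellative
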